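import Pool.Agent.helper38.OP.Spec

set_option autoImplicit false

namespace Pool.Agent.OP

open Finset Real Pool.Agent.AT Pool.Agent.helper85.FC Pool.Agent.OM

/-- one step -/
lemma SHA_step (M T : ℕ) (v : ℤ) (f : ℤ → ℝ) (hT : 1 ≤ T) (hf : ∀ x, 0 ≤ f x ∧ f x ≤ 1) :
    |sm M T f (v + M) - sm M T f v| ≤ 1 / T := by
  have hTp : (0 : ℝ) < T := by exact_mod_cast hT
  have hsum : ∑ t ∈ range T, f (v + M + M * t) = ∑ t ∈ range T, f (v + M * t) + f (v + M * T) - f v := by
    have h1 := sum_range_succ (fun t : ℕ => f (v + M * (t : ℤ))) T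
    have h2 := sum_range_succ' (fun t : ℕ => f (v + M * (t : ℤ))) T
    have h3 : ∀ t ∈ range T, f (v + M * ((t + 1 : ℕ) : ℤ)) = f (v + M + M * t) := by
      intro t _
      congr 1
      push_cast
      ring
    rw [sum_congr rfl h3] at h2
    have h4 : f (v + M * ((0 : ℕ) : ℤ)) = f v := by
      congr 1
      push_cast
      ring
    rw [h4] at h2
    linarith
  unfold sm
  rw [hsum, ← sub_div, abs_div, abs_of_pos hTp]
  apply div_le_div_of_nonneg_right _ hTp.le
  have a1 := hf (v + M * T)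
  have a2 := hf v
  rw [abs_le]
  constructor <;> linarith [a1.1, a1.2, a2.1, a2.2]

/-- natural shifts -/
lemma SHA_nat (M T : ℕ) (f : ℤ → ℝ) (hT : 1 ≤ T) (hf : ∀ x, 0 ≤ f x ∧ f x ≤ 1) (n : ℕ) : ∀ v : ℤ,
    |sm M T f (v + M * n) - sm M T f v| ≤ (n : ℝ) / T := by
  induction n with
  | zero =>
      intro v
      have : v + M * ((0 : ℕ) : ℤ) = v := by push_cast; ring
      rw [this]
      simp
  | succ n ih =>
      intro v
      have h1 := ih v
      have h2 := SHA_step M T (v + M * n) f hT hf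
      have h3 : v + M * ((n + 1 : ℕ) : ℤ) = v + M * n + M := by push_cast; ring
      rw [h3]
      have h4 := abs_sub_le (sm M T f (v + M * n + M)) (sm M T f (v + M * n)) (sm M T f v)
      have h5 : (((n + 1 : ℕ) : ℝ)) / T = 1 / T + (n : ℝ) / T := by push_cast; ring
      rw [h5]
      linarith

theorem SHA : SHA_stmt := by
  intro M T s v f hT hf
  rcases le_total 0 s with hs | hs
  · obtain ⟨n, rfl⟩ := Int.eq_ofNat_of_zero_le hs
    have := SHA_nat M T f hT hf n v
    have e : |(((n : ℕ) : ℤ) : ℝ)| = (n : ℝ) := by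
      rw [Int.cast_natCast]
      exact abs_of_nonneg (Nat.cast_nonneg n)
    rw [e]
    exact this
  · obtain ⟨n, hn⟩ := Int.exists_eq_neg_ofNat hs
    subst hn
    have := SHA_nat M T f hT hf n (v + M * (-(n : ℤ)))
    have e : |((-(n : ℤ) : ℤ) : ℝ)| = (n : ℝ) := by
      push_cast
      rw [abs_neg]
      exact abs_of_nonneg (Nat.cast_nonneg n)
    rw [e, abs_sub_comm]
    have e2 : v + M * (-(n : ℤ)) + M * (n : ℤ) = v := by ring
    rw [e2] at this
    exact this

end Pool.Agent.OP
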